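import Pool.Agent.Helper64.RN.Goals2

/-!
Project RN (MP_d01c92_ag), packet TA: Taylor homomorphisms
-/

set_option autoImplicit false

namespace Pool.Agent.Helper24.RN.TA

open Finset

universe u

section

variable {K Ω : Type u} [Field K] [Field Ω] [Algebra K Ω] (δ : Derivation K Ω Ω)

theorem leib (n : ℕ) (g h : Ω) : (⇑δ)^[n] (g * h) =
    ∑ ij ∈ antidiagonal n, ((n.choose ij.1 : ℕ) : Ω) * ((⇑δ)^[ij.1] g * (⇑δ)^[ij.2] h) := by
  induction n with
  | zero => simp
  | succ n ih =>
    rw [Function.iterate_succ_apply', ih, map_sum,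
      Finset.sum_antidiagonal_choose_succ_mul (fun i j => (⇑δ)^[i] g * (⇑δ)^[j] h) n,
      ← Finset.sum_add_distrib]
    apply Finset.sum_congr rfl
    intro ij hij
    replace hij := Finset.HasAntidiagonal.mem_antidiagonal.mp hij
    have hc : n.choose ij.2 = n.choose ij.1 := by
      apply Nat.choose_symm_of_eq_add
      omega
    rw [hc, ← nsmul_eq_mul, map_nsmul, Derivation.leibniz, nsmul_eq_mul,
      Function.iterate_succ_apply', Function.iterate_succ_apply', smul_eq_mul, smul_eq_mul]
    ring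

theorem it_const (j : ℕ) (x : Ω) (hx : δ x = 0) : (⇑δ)^[j + 1] x = 0 := by
  rw [Function.iterate_succ_apply, hx]
  exact iterate_map_zero δ j

end

theorem t : Pool.Agent.Helper64.RN.S_TA.{u} := by
  intro K Ω _ _ _ _ δ a
  have hmk : ∀ (g : Ω) (j : ℕ), PowerSeries.coeff j (PowerSeries.mk fun j : ℕ =>
      (a : Ω) ^ j / (j.factorial : Ω) * (⇑δ)^[j] g) =
      (a : Ω) ^ j / (j.factorial : Ω) * (⇑δ)^[j] g := fun g j => PowerSeries.coeff_mk _ _
  have hone : ∀ x : Ω, δ x = 0 → (PowerSeries.mk fun j : ℕ =>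
      (a : Ω) ^ j / (j.factorial : Ω) * (⇑δ)^[j] x) = PowerSeries.C x := by
    intro x hx
    ext j
    rw [hmk, PowerSeries.coeff_C]
    cases j with
    | zero => simp
    | succ j =>
      rw [it_const δ j x hx, mul_zero, if_neg (Nat.succ_ne_zero j)]
  refine ⟨{ toFun := fun g => PowerSeries.mk fun j : ℕ =>
              (a : Ω) ^ j / (j.factorial : Ω) * (⇑δ)^[j] g
            map_one' := by
              rw [hone 1 (Derivation.map_one_eq_zero δ), map_one]
            map_mul' := ?_
            map_zero' := by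
              rw [hone 0 (map_zero δ), map_zero]
            map_add' := ?_
            commutes' := ?_ }, fun g j => hmk g j⟩
  · intro g h
    ext n
    rw [hmk, PowerSeries.coeff_mul, leib, Finset.mul_sum]
    apply Finset.sum_congr rfl
    intro ij hij
    replace hij := Finset.HasAntidiagonal.mem_antidiagonal.mp hij
    rw [hmk, hmk]
    have h1 : ((ij.1.factorial : ℕ) : Ω) ≠ 0 := by exact_mod_cast ij.1.factorial_ne_zero
    have h2 : ((ij.2.factorial : ℕ) : Ω) ≠ 0 := by exact_mod_cast ij.2.factorial_ne_zero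
    have h3 : ((n.factorial : ℕ) : Ω) ≠ 0 := by exact_mod_cast n.factorial_ne_zero
    have h4 : ((n.choose ij.1 : ℕ) : Ω) * ((ij.1.factorial : ℕ) : Ω) * ((ij.2.factorial : ℕ) : Ω) =
        ((n.factorial : ℕ) : Ω) := by
      have h5 := Nat.choose_mul_factorial_mul_factorial (n := n) (k := ij.1) (by omega)
      have h6 : n - ij.1 = ij.2 := by omega
      rw [h6] at h5
      exact_mod_cast h5
    have h7 : (a : Ω) ^ n = (a : Ω) ^ ij.1 * (a : Ω) ^ ij.2 := by rw [← pow_add, hij]
    rw [h7]
    field_simp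
    rw [← h4]
    ring
  · intro g h
    ext n
    rw [hmk, map_add, hmk, hmk, iterate_map_add δ n g h]
    ring
  · intro r
    rw [hone _ (Derivation.map_algebraMap δ r)]
    exact (PowerSeries.algebraMap_apply (R := K) (A := Ω) (r := r)).symm

end Pool.Agent.Helper24.RN.TA
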